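import Pool.Agent.Q21.CS6

open Q21.CS OnePoint in
/-- The group `S` generated by Thompson's group `T` (piecewise `PSL₂(ℤ)` homeomorphisms of the
circle `ℝ ∪ {∞}`) and the map `s` is generated by two elements, one with fourth power one and one
with sixth power one, and it is not generated by one element. -/
theorem Pool.Agent.Results.MP_2f0074_al.TwoGenerated.result :
    ∃ s : OnePoint ℝ ≃ₜ OnePoint ℝ, s ∞ = ∞ ∧
      (∀ t : ℝ, s (t : OnePoint ℝ) = ((sFun t : ℝ) : OnePoint ℝ)) ∧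
      (∃ x y : OnePoint ℝ ≃ₜ OnePoint ℝ, x ^ 4 = 1 ∧ y ^ 6 = 1 ∧
        Subgroup.closure {x, y} = Subgroup.closure (ThompsonT ∪ {s})) ∧
      ∀ x : OnePoint ℝ ≃ₜ OnePoint ℝ,
        Subgroup.closure {x} ≠ Subgroup.closure (ThompsonT ∪ {s}) := by
  refine ⟨s0, s0_inf, s0_coe, ⟨c4, yy, ?_, ?_, two_gen⟩, ?_⟩
  · have h : c4 * c4 = E tO * (iG * (E tO)⁻¹) := c4_sq
    calc c4 ^ 4 = (c4 * c4) * (c4 * c4) := by
          rw [show (4 : ℕ) = 2 + 2 from rfl, pow_add, pow_two]
      _ = E tO * (iG * iG) * (E tO)⁻¹ := by rw [h]; group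
      _ = 1 := by rw [iG_sq]; group
  · calc yy ^ 6 = (yy * yy) * (yy * yy) * (yy * yy) := by
          rw [show (6 : ℕ) = 2 + 2 + 2 from rfl, pow_add, pow_add, pow_two]
      _ = 1 := by rw [yy_sq, be_pow]
  · intro x hx
    have h1 : E tO ∈ Subgroup.closure {x} := by
      rw [hx]; exact Subgroup.subset_closure (Or.inl T_t)
    have h2 : iG ∈ Subgroup.closure {x} := by
      rw [hx]; exact Subgroup.subset_closure (Or.inl T_i)
    rw [Subgroup.mem_closure_singleton] at h1 h2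
    obtain ⟨m, hm⟩ := h1
    obtain ⟨n, hn⟩ := h2
    have hc : E tO * iG = iG * E tO := by
      rw [← hm, ← hn, ← zpow_add, ← zpow_add, add_comm]
    have := congrArg (fun f : OnePoint ℝ ≃ₜ OnePoint ℝ => f ∞) hc
    simp only [Homeomorph.mul_apply] at this
    rw [iG_inf, E_inf, E_coe, iG_inf, tO_apply] at this
    have h3 := coe_injective this
    norm_num at h3
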